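import Pool.Agent.H22.AN.Defs

/-! The Hessian bound in all dimensions (MP_2697e3_an): target statements of the rows of the board allh,
part A: the energy measure, beta numbers, packing, small energy, selection of the frame, thin annuli.
Pages: H22_ALLN.md, H80_ALLN.md, H87_D3.md in the team store. -/

namespace Pool.Agent.H22.AN

open MeasureTheory Metric Set Filter Topology Pool.Agent.H87.SN Pool.Agent.H87.SH Pool.Agent.H87.AX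
open scoped ContDiff RealInnerProductSpace ENNReal

noncomputable section

/-! ### Measure theory -/

/-- Facts on the energy measure. -/
def T_MUF : Prop := ∀ (d m : ℕ) (G : V d → V d →L[ℝ] E m),
    MemLp G 2 (volume.restrict (ball (0 : V d) 2)) →
    mu G univ ≠ ⊤ ∧ mu G ≪ volume.restrict (ball (0 : V d) 2) ∧
    (∀ f : V d → ℝ≥0∞, Measurable f → ∀ S : Set (V d), MeasurableSet S →
      ∫⁻ x in S, f x ∂(mu G) = ∫⁻ x in S ∩ ball (0 : V d) 2, ENNReal.ofReal (nsq (G x)) * f x) ∧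
    (∀ S : Set (V d), MeasurableSet S → S ⊆ ball 0 2 →
      IntegrableOn (fun x => nsq (G x)) S ∧ (mu G).real S = ∫ x in S, nsq (G x)) ∧
    (∀ (f : V d → ℝ) (S : Set (V d)) (B : ℝ), Measurable f → MeasurableSet S → S ⊆ ball 0 2 →
      (∀ x ∈ S, 0 ≤ f x ∧ f x ≤ B) → IntegrableOn (fun x => f x * nsq (G x)) S ∧
      ∫⁻ x in S, ENNReal.ofReal (f x) ∂(mu G) = ENNReal.ofReal (∫ x in S, f x * nsq (G x))) ∧
    (∀ r : ℝ, Continuous (fun x => (mu G).real (ball x r)))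

/-- Zoom and the energy measure. -/
def T_ZMU : Prop := ∀ (d m : ℕ) (G : V d → V d →L[ℝ] E m) (c : V d) (r : ℝ)
    (g : V d ≃ₗᵢ[ℝ] V d),
    MemLp G 2 (volume.restrict (ball (0 : V d) 2)) → 0 < r → ball c (2 * r) ⊆ ball 0 2 →
    MemLp (zG c r g G) 2 (volume.restrict (ball (0 : V d) 2)) ∧
    (∀ (f : V d → ℝ≥0∞) (S : Set (V d)), Measurable f → MeasurableSet S → S ⊆ ball 0 2 →
      ∫⁻ y in S, f (zm c r g y) ∂(mu (zG c r g G)) =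
        ENNReal.ofReal ((r ^ d)⁻¹) * ∫⁻ x in zm c r g '' S, f x ∂(mu G)) ∧
    (∀ (f : V d → ℝ≥0∞) (S : Set (V d)), Measurable f → MeasurableSet S →
      ∫⁻ y in S, f (zm c r g y) =
        ENNReal.ofReal ((r ^ (d + 2))⁻¹) * ∫⁻ x in zm c r g '' S, f x) ∧
    (∀ (y : V d) (s : ℝ), zm c r g '' ball y s = ball (zm c r g y) (r * s)) ∧
    (∀ (y : V d) (s : ℝ), 0 < s → ball y s ⊆ ball 0 2 →
      th (zG c r g G) y s = th G (zm c r g y) (r * s)) ∧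
    (∀ (y : V d) (t : ℝ), 0 < t → ball y (8 * t) ⊆ ball 0 2 →
      bt (zG c r g G) y t = bt G (zm c r g y) (r * t) ∧
      bs (zG c r g G) y t = bs G (zm c r g y) (r * t))

/-- Zoom of the map. -/
def T_ZOM : Prop := ∀ (d m : ℕ) (L Λ ε : ℝ) (U : Set (V d)) (u : V d → E m)
    (G : V d → V d →L[ℝ] E m), SM d m L Λ ε U u G →
    ∀ (c : V d) (r : ℝ) (g : V d ≃ₗᵢ[ℝ] V d), 0 < r → ball c (2 * r) ⊆ ball 0 2 →
    SM d m L Λ ε (ball 0 2 ∩ zm c r g ⁻¹' U) (fun y => u (zm c r g y)) (zG c r g G) ∧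
    (∀ y ∈ ball (0 : V d) 2 ∩ zm c r g ⁻¹' U,
      en (fun y => u (zm c r g y)) y = r ^ 2 * en u (zm c r g y) ∧
      hsq (fun y => u (zm c r g y)) y = r ^ 4 * hsq u (zm c r g y))

/-- The beta numbers are measurable. -/
def T_BTM : Prop := ∀ (d m : ℕ) (G : V d → V d →L[ℝ] E m),
    MemLp G 2 (volume.restrict (ball (0 : V d) 2)) → ∀ t : ℝ, 0 < t →
    Measurable (fun x => bt G x t) ∧ Measurable (fun x => bs G x t)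

/-- Facts on beta numbers. -/
def T_BTF : Prop := ∀ d : ℕ,
    (∀ a ν₁ ν₂ y : V d, ON ν₁ ν₂ → 0 ≤ dl a ν₁ ν₂ y ∧ dl a ν₁ ν₂ y ≤ ‖y - a‖ ^ 2) ∧
    ON (bv (0 : Fin (d + 2))) (bv (1 : Fin (d + 2))) ∧
    (∀ y : V d, dl 0 (bv (0 : Fin (d + 2))) (bv (1 : Fin (d + 2))) y = rho y ^ 2) ∧
    (∀ (m : ℕ) (G : V d → V d →L[ℝ] E m) (Λ : ℝ), GD Λ G → ∀ (x : V d) (t : ℝ), 0 < t →
      ball x (8 * t) ⊆ ball 0 2 → bt G x t ≤ ENNReal.ofReal (8 ^ (d + 2) * Λ)) ∧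
    (∀ (m : ℕ) (G : V d → V d →L[ℝ] E m) (x x' : V d) (t : ℝ), 0 < t → dist x x' ≤ 8 * t →
      bt G x t ≤ 2 ^ (d + 2) * bt G x' (2 * t))

/-- The volume of the set of points of large density. -/
def T_VOL : Prop := ∀ (d m : ℕ) (G : V d → V d →L[ℝ] E m),
    MemLp G 2 (volume.restrict (ball (0 : V d) 2)) → ∀ (e M : ℝ) (c : V d) (r s : ℝ), 0 < e →
    0 < s → 0 ≤ r → (mu G).real (ball c (r + s)) ≤ M →
    volume {x | x ∈ ball c r ∧ e ≤ th G x s} ≤ ENNReal.ofReal (2 ^ (d + 2) * M / e * s ^ 2)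

/-! ### Monotonicity and small energy -/

/-- Monotonicity formula. -/
def T_MNT : Prop := ∀ (d m : ℕ) (G : V d → V d →L[ℝ] E m),
    MemLp G 2 (volume.restrict (ball (0 : V d) 2)) → Stat1 G → ∀ (x : V d) (r R : ℝ), 0 < r →
    r < R → ball x R ⊆ ball 0 2 →
    IntegrableOn (fun y => (‖y - x‖ ^ (d + 2))⁻¹ * ‖G y (y - x)‖ ^ 2) (ball x R \ ball x r) ∧
    th G x r + 2 * ∫ y in ball x R \ ball x r, (‖y - x‖ ^ (d + 2))⁻¹ * ‖G y (y - x)‖ ^ 2 ≤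
      th G x R

/-- Small energy: regularity and small gradient. -/
def T_EPR : Prop := ∀ (d m : ℕ) (L ε δ : ℝ), 0 ≤ L → 0 < ε → 0 < δ → ∃ e : ℝ, 0 < e ∧
    ∀ (Λ : ℝ) (U : Set (V d)) (u : V d → E m) (G : V d → V d →L[ℝ] E m), SM d m L Λ ε U u G →
    ∀ (x : V d) (r : ℝ), 0 < r → ball x r ⊆ ball 0 2 → (mu G).real (ball x r) ≤ e * r ^ d →
    ∀ y ∈ ball x (r / 2), y ∈ U ∧ r ^ 2 * en u y ≤ δ ^ 2

/-- The threshold exists. -/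
def T_EPC : Prop := ∀ (d m : ℕ) (L Λ ε : ℝ), 0 ≤ L → 0 < Λ → 0 < ε →
    ∃ e : ℝ, 0 < e ∧ e ≤ Λ ∧ EP d m L Λ ε e

/-- Local bound of the Hessian. -/
def T_HLC : Prop := ∀ (d m : ℕ) (L Λ ε e : ℝ), 0 ≤ L → EP d m L Λ ε e → ∃ C : ℝ, 0 ≤ C ∧
    ∀ (U : Set (V d)) (u : V d → E m) (G : V d → V d →L[ℝ] E m), SM d m L Λ ε U u G →
    ∀ (x : V d) (R : ℝ), 0 < R → ball x R ⊆ ball 0 2 → th G x R < 2 * e →
    ball x (R / 32) ⊆ U ∧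
    hInt u (ball x (R / 32)) ≤ ENNReal.ofReal (C * R ^ d * Real.sqrt (th G x (R / 16)))

/-! ### Selection of the frame -/

/-- Mass of a thin tube. -/
def T_TUB : Prop := ∀ (d : ℕ) (Λ : ℝ), 1 ≤ d → 0 ≤ Λ → ∃ C : ℝ, 0 ≤ C ∧
    ∀ (m : ℕ) (G : V d → V d →L[ℝ] E m), GD Λ G → ∀ (n : Fin 3 → V d) (a x : V d) (r s : ℝ),
    Orthonormal ℝ n → 0 < r → r ≤ s → ball x (4 * s) ⊆ ball 0 2 →
    (mu G).real {y : V d | y ∈ ball x s ∧ ∀ i, |⟪y - a, n i⟫| < r} ≤ C * r * s ^ (d - 1)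

/-- The set of good points of a pinched cell has mass. -/
def T_GST : Prop := ∀ (d m : ℕ) (Λ : ℝ) (G : V d → V d →L[ℝ] E m), GD Λ G → 0 < Λ →
    ∀ (K : ℕ) (x : V d) (s e om : ℝ), 0 < s → ball x (2 * s) ⊆ ball 0 2 → 0 < e → 0 < om →
    e ≤ th G x (s / 64) → Wc G K x s < ENNReal.ofReal (om * e / (2 * 64 ^ d)) →
    MeasurableSet {p : V d | p ∈ ball x (s / 64) ∧ dr G K p s ≤ om} ∧
    e * (s / 64) ^ d / 2 ≤ (mu G).real {p : V d | p ∈ ball x (s / 64) ∧ dr G K p s ≤ om}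

/-- The derivative in the direction of the difference of two good points. -/
def T_PQB : Prop := ∀ (d m : ℕ) (Λ : ℝ) (G : V d → V d →L[ℝ] E m), GD Λ G → 0 ≤ Λ →
    ∀ (K : ℕ) (p p' : V d) (s om : ℝ), 1 ≤ K → 0 < s → ball p s ⊆ ball 0 2 →
    ball p' s ⊆ ball 0 2 → ‖p' - p‖ ≤ s / 32 → dr G K p s ≤ om → dr G K p' s ≤ om →
    ∫ x in ball p (7 / 8 * s), ‖G x (p' - p)‖ ^ 2 ≤
      s ^ (d + 2) * (2 * om + Λ * ((1 / 2) ^ K) ^ d)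

/-- Linear algebra of the selection. -/
def T_ONB : Prop := ∀ (d : ℕ) (r₁ : ℝ), 0 < r₁ → ∃ C : ℝ, 0 ≤ C ∧
    ∀ (Q : V d → ℝ) (S : Set (V d)) (p : V d) (A : ℝ), (∀ v, 0 ≤ Q v) →
    (∀ (v w : V d) (a b : ℝ), Q (a • v + b • w) ≤ 2 * a ^ 2 * Q v + 2 * b ^ 2 * Q w) →
    (∀ y ∈ S, Q (y - p) ≤ A ∧ ‖y - p‖ ≤ 1) →
    (∀ k : ℕ, k < d → ∀ v : Fin k → V d, Orthonormal ℝ v →
      ∃ y ∈ S, r₁ ≤ ‖(y - p) - ∑ i, ⟪v i, y - p⟫ • v i‖) →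
    ∃ g : V d ≃ₗᵢ[ℝ] V d, ∀ i : Fin d, Q (g (bv i.succ.succ)) ≤ C * A

/-- A good point off a lower dimensional plane. -/
def T_SPT : Prop := ∀ (d : ℕ) (Λ c : ℝ), 1 ≤ d → 0 ≤ Λ → 0 < c → ∃ r₁ : ℝ, 0 < r₁ ∧
    ∀ (m : ℕ) (G : V d → V d →L[ℝ] E m), GD Λ G → ∀ (S : Set (V d)) (x p : V d) (s : ℝ),
    0 < s → ball x (2 * s) ⊆ ball 0 2 → S ⊆ ball x (s / 64) → c * s ^ d ≤ (mu G).real S →
    ∀ k : ℕ, k < d → ∀ v : Fin k → V d, Orthonormal ℝ v →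
    ∃ y ∈ S, r₁ * s ≤ ‖(y - p) - ∑ i, ⟪v i, y - p⟫ • v i‖

/-- The frame of a pinched cell. -/
def T_SEL : Prop := ∀ (d m : ℕ) (Λ e om : ℝ), 1 ≤ d → 0 < Λ → 0 < e → 0 < om →
    ∃ (K₀ : ℕ) (ν : ℝ), 0 < ν ∧ ∀ K : ℕ, K₀ ≤ K → ∀ G : V d → V d →L[ℝ] E m, GD Λ G →
    ∀ (x : V d) (s : ℝ), 0 < s → ball x (4 * s) ⊆ ball 0 2 → e ≤ th G x (s / 64) →
    Wc G K x s < ENNReal.ofReal ν →
    ∃ p ∈ ball x (s / 64), ∃ (g : V d ≃ₗᵢ[ℝ] V d) (x₀ : V d), zm p s g x₀ = x ∧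
      Fr (zG p s g G) ((1 / 2) ^ K) om e x₀

/-- Frames for a smaller ratio are frames for a larger ratio. -/
def T_FMO : Prop := ∀ (d m : ℕ) (Λ : ℝ) (G : V d → V d →L[ℝ] E m), GD Λ G →
    ∀ (τ₁ τ₂ om e : ℝ) (x₀ : V d), 0 < τ₁ → τ₁ ≤ τ₂ → τ₂ ≤ 1 → Fr G τ₁ om e x₀ →
    Fr G τ₂ om e x₀

/-! ### Thin annuli -/

/-- The radial energy. -/
def T_RAD : Prop := ∀ (d m : ℕ) (Λ : ℝ) (G : V d → V d →L[ℝ] E m), GD Λ G →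
    ∀ (τ om e : ℝ) (x₀ : V d), 0 < τ → τ ≤ 1 / 64 → Fr G τ om e x₀ →
    ∫ x in {x : V d | x ∈ ball 0 (7 / 8) ∧ τ ≤ ‖x‖},
      (nzs (G x) + ‖G x (Pm d x)‖ ^ 2) ≤ 4 * om

/-- The identity of Pohozaev for the field `f(x) (x_0, x_1, 0)`. -/
def T_PID : Prop := ∀ (d m : ℕ) (G : V d → V d →L[ℝ] E m),
    MemLp G 2 (volume.restrict (ball (0 : V d) 2)) → Stat1 G → ∀ f : V d → ℝ, ContDiff ℝ 1 f →
    HasCompactSupport f → tsupport f ⊆ ball 0 2 → (∀ x, fderiv ℝ f x (Jm d x) = 0) →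
    ∫ x in ball (0 : V d) 2, ((2 * f x - kap f x) * nzs (G x) +
      kap f x * ((rho x ^ 2)⁻¹ * ‖G x (Pm d x)‖ ^ 2) -
      kap f x * ((rho x ^ 2)⁻¹ * ‖G x (Jm d x)‖ ^ 2) -
      2 * ∑ i : Fin d, fderiv ℝ f x (bv i.succ.succ) * ⟪G x (bv i.succ.succ), G x (Pm d x)⟫) = 0

/-- The logarithmic profile. -/
def T_PRF : Prop := ∀ δ : ℝ, 0 < δ → ∃ (M C : ℝ) (η : ℝ → ℝ), 2 ≤ M ∧ 0 ≤ C ∧ ContDiff ℝ 1 η ∧
    (∀ s, 0 ≤ η s ∧ η s ≤ C) ∧ (∀ s, s ≤ 1 / M → η s = 0) ∧ (∀ s, 5 / 4 ≤ s → η s = 0) ∧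
    (∀ s, s * deriv η s ≤ δ) ∧ (∀ s, - C ≤ s * deriv η s) ∧
    (∀ s ∈ Icc (7 / 8 : ℝ) (9 / 8), s * deriv η s ≤ - 1)

/-- Annuli have small energy. -/
def T_ANN : Prop := ∀ (d : ℕ) (Λ δ : ℝ), 0 ≤ Λ → 0 < δ → ∃ M C : ℝ, 2 ≤ M ∧ 0 ≤ C ∧
    ∀ (m : ℕ) (G : V d → V d →L[ℝ] E m), GD Λ G → ∀ x ∈ ball (0 : V d) (5 / 8), 0 < rho x →
    (mu G).real (ball x (rho x / 8)) ≤ δ * rho x ^ d + C / rho x ^ 2 *
      ∫ y in {y : V d | y ∈ ball 0 (7 / 8) ∧ rho x / M < rho y},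
        (nzs (G y) + ‖G y (Pm d y)‖ ^ 2)

/-- The neck. -/
def T_NCK : Prop := ∀ (d m : ℕ) (L Λ ε δ rc : ℝ), 0 ≤ L → 0 < Λ → 0 < ε → 0 < δ → 0 < rc →
    ∃ τ₀ om : ℝ, 0 < τ₀ ∧ 0 < om ∧
    ∀ (U : Set (V d)) (u : V d → E m) (G : V d → V d →L[ℝ] E m), SM d m L Λ ε U u G →
    ∀ (τ e : ℝ) (x₀ : V d), 0 < τ → τ ≤ τ₀ → Fr G τ om e x₀ →
    (∀ x ∈ ball (0 : V d) (5 / 8), rc ≤ rho x → x ∈ U ∧ rho x * Real.sqrt (en u x) ≤ δ) ∧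
    ∫ x in ball (0 : V d) (5 / 8), nzs (G x) ≤ δ

end

end Pool.Agent.H22.AN
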