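import Pool.Agent.H22.AN.TB2
import Pool.Agent.H14.SN.ROT

/-! Row WTS of the board allh: facts on the weights. -/

set_option autoImplicit false

namespace Pool.Agent.H80.AN

open MeasureTheory Metric Set Filter Topology Pool.Agent.H87.SN Pool.Agent.H87.SH Pool.Agent.H87.AX
open Pool.Agent.H22.AN
open scoped ContDiff RealInnerProductSpace ENNReal

noncomputable section

/-- The coordinates. -/
def cf {d : ℕ} (i : Fin (d + 2)) : V d →L[ℝ] ℝ := EuclideanSpace.proj i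

theorem cf_ap {d : ℕ} (i : Fin (d + 2)) (v : V d) : cf i v = v i := rfl

theorem hasF_cf {d : ℕ} (i : Fin (d + 2)) (x : V d) :
    HasFDerivAt (fun y : V d => y i) (cf i) x :=
  (cf i).hasFDerivAt

theorem contDiff_cf {d : ℕ} (i : Fin (d + 2)) : ContDiff ℝ ∞ (fun y : V d => y i) :=
  (cf i).contDiff

/-- The last coordinates. -/
def zc (d : ℕ) : V d →L[ℝ] E d := LinearMap.toContinuousLinearMap
  { toFun := fun x => zp x
    map_add' := fun x y => by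
      ext i
      simp [zp]
    map_smul' := fun c x => by
      ext i
      simp [zp] }

theorem zc_ap {d : ℕ} (x : V d) : zc d x = zp x := rfl

/-- The square of the positive part. -/
theorem hasD_pp (s : ℝ) : HasDerivAt (fun s : ℝ => (max 0 s) ^ 2) (2 * max 0 s) s := by
  rcases lt_trichotomy s 0 with h | h | h
  · have e : (fun s : ℝ => (max 0 s) ^ 2) =ᶠ[𝓝 s] fun _ => 0 := by
      filter_upwards [Iio_mem_nhds h] with t ht
      rw [max_eq_left (le_of_lt ht)]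
      norm_num
    rw [max_eq_left h.le, mul_zero]
    exact (hasDerivAt_const s (0 : ℝ)).congr_of_eventuallyEq e
  · subst h
    rw [max_self, mul_zero, hasDerivAt_iff_isLittleO]
    simp only [max_self, sub_zero, smul_eq_mul, mul_zero]
    have h2 : (fun t : ℝ => t ^ 2) =o[𝓝 0] fun t : ℝ => t := by
      have := Asymptotics.isLittleO_pow_id (𝕜 := ℝ) (n := 2) (by norm_num)
      exact this
    refine Asymptotics.IsBigO.trans_isLittleO ?_ h2
    refine Asymptotics.IsBigO.of_bound 1 (Filter.Eventually.of_forall fun t => ?_)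
    simp only [Real.norm_eq_abs, one_mul, abs_pow, sq_abs]
    rcases le_total t 0 with ht | ht
    · rw [max_eq_left ht, sub_self, abs_zero]
      positivity
    · rw [max_eq_right ht, zero_pow two_ne_zero, sub_zero, abs_of_nonneg (sq_nonneg t)]
  · have e : (fun s : ℝ => (max 0 s) ^ 2) =ᶠ[𝓝 s] fun t => t ^ 2 := by
      filter_upwards [Ioi_mem_nhds h] with t ht
      rw [max_eq_right (le_of_lt ht)]
    rw [max_eq_right h.le]
    have := (hasDerivAt_pow 2 s).congr_of_eventuallyEq e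
    simpa using this

theorem contD_pp : ContDiff ℝ 1 (fun s : ℝ => (max 0 s) ^ 2) := by
  rw [contDiff_one_iff_deriv]
  refine ⟨fun s => (hasD_pp s).differentiableAt, ?_⟩
  have e : deriv (fun s : ℝ => (max 0 s) ^ 2) = fun s => 2 * max 0 s := by
    funext s
    exact (hasD_pp s).deriv
  rw [e]
  fun_prop

/-- The positive part in the basic function. -/
def mp {d : ℕ} (x : V d) : ℝ := max 0 (‖zp x‖ ^ 2 - 1 / 256)

theorem mp_nn {d : ℕ} (x : V d) : 0 ≤ mp x := le_max_left _ _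

theorem cc_pos (d : ℕ) : 0 < cc d := by
  unfold cc
  positivity

theorem bb_eq (d : ℕ) : bb d = 2 - 1 / ((d : ℝ) + 1) := by
  unfold bb
  have : (d : ℝ) + 1 ≠ 0 := by positivity
  field_simp
  ring

theorem bb_le (d : ℕ) : bb d ≤ 2 := by
  rw [bb_eq]
  have : (0 : ℝ) ≤ 1 / ((d : ℝ) + 1) := by positivity
  linarith

theorem bb_ge (d : ℕ) : 1 ≤ bb d := by
  rw [bb_eq]
  have : (1 : ℝ) / ((d : ℝ) + 1) ≤ 1 := by
    rw [div_le_one (by positivity)]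
    have : (0 : ℝ) ≤ d := Nat.cast_nonneg d
    linarith
  linarith

theorem rho_sq' {d : ℕ} (x : V d) : rho x ^ 2 = x 0 ^ 2 + x 1 ^ 2 := by
  unfold rho
  rw [Real.sq_sqrt (by positivity)]

theorem rho_nn {d : ℕ} (x : V d) : 0 ≤ rho x := Real.sqrt_nonneg _

theorem DD_eq {d : ℕ} (σ : ℝ) (x : V d) :
    DD σ x = σ ^ 2 + rho x ^ 2 + cc d ^ 2 * mp x ^ 2 := by
  rw [rho_sq']
  unfold DD mp
  ring

theorem DD_pos {d : ℕ} {σ : ℝ} (hσ : 0 < σ) (x : V d) : 0 < DD σ x := by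
  rw [DD_eq]
  positivity

theorem rho_le_DD {d : ℕ} (σ : ℝ) (x : V d) : rho x ^ 2 ≤ DD σ x := by
  rw [DD_eq]
  have := sq_nonneg σ
  have : 0 ≤ cc d ^ 2 * mp x ^ 2 := by positivity
  linarith

theorem mp_le_DD {d : ℕ} (σ : ℝ) (x : V d) : cc d ^ 2 * mp x ^ 2 ≤ DD σ x - rho x ^ 2 := by
  rw [DD_eq]
  have := sq_nonneg σ
  linarith

/-- The derivative of the basic function. -/
def DL {d : ℕ} (x : V d) : V d →L[ℝ] ℝ :=
  (2 * x 0) • cf 0 + (2 * x 1) • cf 1 +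
    (cc d ^ 2 * (4 * mp x)) • ((innerSL ℝ (zp x)).comp (zc d))

theorem DL_ap {d : ℕ} (x v : V d) :
    DL x v = 2 * x 0 * v 0 + 2 * x 1 * v 1 + cc d ^ 2 * (4 * mp x) * ⟪zp x, zp v⟫ := by
  unfold DL
  simp only [_root_.add_apply, _root_.smul_apply, cf_ap, smul_eq_mul,
    ContinuousLinearMap.comp_apply, zc_ap, innerSL_apply_apply]

theorem hasF_zsq {d : ℕ} (x : V d) :
    HasFDerivAt (fun y : V d => ‖zp y‖ ^ 2 - 1 / 256)
      ((2 : ℝ) • ((innerSL ℝ (zp x)).comp (zc d))) x := by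
  have h := ((zc d).hasFDerivAt (x := x)).norm_sq
  have h2 := h.sub_const (1 / 256)
  refine h2.congr_fderiv ?_
  ext v
  simp [zc_ap]

theorem hasF_DD {d : ℕ} (σ : ℝ) (x : V d) : HasFDerivAt (DD σ) (DL x) x := by
  have h := ((((hasF_cf 0 x).pow 2).const_add (σ ^ 2)).add ((hasF_cf 1 x).pow 2)).add
    (((hasD_pp (‖zp x‖ ^ 2 - 1 / 256)).comp_hasFDerivAt x (hasF_zsq x)).const_mul (cc d ^ 2))
  refine h.congr_fderiv ?_
  ext v
  rw [DL_ap]
  simp only [_root_.add_apply, _root_.smul_apply, cf_ap, smul_eq_mul,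
    pow_one, Nat.add_one_sub_one, ContinuousLinearMap.comp_apply, zc_ap,
    innerSL_apply_apply]
  unfold mp
  ring

theorem contDiff_DD {d : ℕ} (σ : ℝ) : ContDiff ℝ 1 (DD (d := d) σ) := by
  have hz : ContDiff ℝ 1 (fun y : V d => ‖zp y‖ ^ 2 - 1 / 256) :=
    (((zc d).contDiff (n := 1)).norm_sq ℝ).sub contDiff_const
  exact (((contDiff_const.add (((cf 0).contDiff).pow 2)).add (((cf 1).contDiff).pow 2)).add
    (contDiff_const.mul (contD_pp.comp hz)))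

theorem hasF_et {d : ℕ} {σ : ℝ} (hσ : 0 < σ) (x : V d) :
    HasFDerivAt (et σ) ((-(bb d / 2) * DD σ x ^ (-(bb d / 2 + 1))) • DL x) x := by
  have h := (hasF_DD σ x).rpow_const (p := -(bb d / 2)) (Or.inl (DD_pos hσ x).ne')
  have e : -(bb d / 2) - 1 = -(bb d / 2 + 1) := by ring
  rw [e] at h
  exact h

theorem fd_et {d : ℕ} {σ : ℝ} (hσ : 0 < σ) (x v : V d) :
    fderiv ℝ (et σ) x v = -(bb d / 2) * DD σ x ^ (-(bb d / 2 + 1)) * DL x v := by
  rw [(hasF_et hσ x).fderiv, _root_.smul_apply, smul_eq_mul]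

theorem zp_Jm {d : ℕ} (x : V d) : zp (Jm d x) = 0 := by
  ext i
  exact Pool.Agent.H14.SN.Jm_succ x i

theorem zp_Pm {d : ℕ} (x : V d) : zp (Pm d x) = 0 := by
  ext i
  exact Pool.Agent.H14.SN.Pm_succ x i

theorem DL_Jm {d : ℕ} (x : V d) : DL x (Jm d x) = 0 := by
  rw [DL_ap, zp_Jm, Pool.Agent.H14.SN.Jm_zero, Pool.Agent.H14.SN.Jm_one, inner_zero_right]
  ring

theorem DL_Pm {d : ℕ} (x : V d) : DL x (Pm d x) = 2 * rho x ^ 2 := by
  rw [DL_ap, zp_Pm, Pool.Agent.H14.SN.Pm_zero, Pool.Agent.H14.SN.Pm_one, inner_zero_right, rho_sq']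
  ring

theorem zp_bz {d : ℕ} (i : Fin d) : zp (bv i.succ.succ : V d) = bv i := by
  ext j
  simp only [zp, bv]
  by_cases h : j = i
  · subst h
    simp
  · have : j.succ.succ ≠ i.succ.succ := by
      intro h'
      exact h (Fin.succ_injective _ (Fin.succ_injective _ h'))
    simp [h]

theorem in_bv {n : ℕ} (z : E n) (i : Fin n) : ⟪z, bv i⟫ = z i := by
  unfold bv
  rw [real_inner_comm]
  simp [EuclideanSpace.inner_single_left]

theorem DL_bz {d : ℕ} (x : V d) (i : Fin d) :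
    DL x (bv i.succ.succ) = cc d ^ 2 * (4 * mp x) * zp x i := by
  rw [DL_ap, zp_bz, in_bv]
  have h0 : (bv i.succ.succ : V d) 0 = 0 := by
    simp [bv]
  have h1 : (bv i.succ.succ : V d) 1 = 0 := by
    have : (1 : Fin (d + 2)) ≠ i.succ.succ := by
      intro h
      have h2 : ((1 : Fin (d + 2)) : ℕ) = (i : ℕ) + 2 := by
        rw [h]
        simp
      simp at h2
    simp [bv, this]
  rw [h0, h1]
  ring

theorem kap_et {d : ℕ} {σ : ℝ} (hσ : 0 < σ) (x : V d) :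
    kap (et σ) x = bb d * (rho x ^ 2 * DD σ x ^ (-(bb d / 2 + 1))) := by
  unfold kap
  rw [fd_et hσ, DL_Pm]
  ring

theorem sum_zp {d : ℕ} (z : E d) : ∑ i : Fin d, z i ^ 2 = ‖z‖ ^ 2 := by
  rw [EuclideanSpace.norm_sq_eq]
  simp only [Real.norm_eq_abs, sq_abs]

theorem nzs_et {d : ℕ} {σ : ℝ} (hσ : 0 < σ) (x : V d) :
    nzs (fderiv ℝ (et σ) x) = (bb d / 2) ^ 2 * (DD σ x ^ (-(bb d / 2 + 1))) ^ 2 *
      (16 * cc d ^ 4 * mp x ^ 2 * ‖zp x‖ ^ 2) := by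
  unfold nzs
  rw [← sum_zp, Finset.mul_sum, Finset.mul_sum]
  refine Finset.sum_congr rfl fun i _ => ?_
  rw [fd_et hσ, DL_bz, Real.norm_eq_abs, sq_abs]
  ring

theorem pneg {D b : ℝ} (hD : 0 < D) : D ^ (-(b / 2 + 1)) = D⁻¹ * D ^ (-(b / 2)) := by
  rw [← Real.rpow_neg_one, ← Real.rpow_add hD]
  congr 1
  ring

theorem zn_le {d : ℕ} {x : V d} (hx : x ∈ ball (0 : V d) 1) : ‖zp x‖ ^ 2 ≤ 1 := by
  have h := Pool.Agent.H14.SN.normsq x
  rw [mem_ball_zero_iff] at hx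
  have h1 : ‖x‖ ^ 2 ≤ 1 := by nlinarith [norm_nonneg x]
  have h2 : ∑ i : Fin d, x i.succ.succ ^ 2 = ‖zp x‖ ^ 2 := by
    rw [← sum_zp]
    rfl
  nlinarith [sq_nonneg (x 0), sq_nonneg (x 1)]

/-- The derivative of rho. -/
theorem hasF_rho {d : ℕ} {x : V d} (hx : 0 < rho x) :
    HasFDerivAt (rho (d := d)) ((x 0 / rho x) • cf 0 + (x 1 / rho x) • cf 1) x := by
  have hp : 0 < x 0 ^ 2 + x 1 ^ 2 := by
    rw [← rho_sq']
    positivity
  have h := (((hasF_cf 0 x).pow 2).add ((hasF_cf 1 x).pow 2)).sqrt hp.ne'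
  refine h.congr_fderiv ?_
  ext v
  have hr : Real.sqrt (x 0 ^ 2 + x 1 ^ 2) = rho x := rfl
  simp only [_root_.add_apply, _root_.smul_apply, cf_ap, smul_eq_mul,
    pow_one, Nat.add_one_sub_one, Pi.add_apply, nsmul_eq_mul, Nat.cast_ofNat]
  rw [hr]
  field_simp

theorem hasF_ww {d : ℕ} {σ : ℝ} (hσ : 0 < σ) {x : V d} (hx : 0 < rho x) :
    HasFDerivAt (ww σ) ((ww σ x * bb d) •
      (((rho x ^ 2)⁻¹ * x 0) • cf 0 + ((rho x ^ 2)⁻¹ * x 1) • cf 1 - (DD σ x)⁻¹ • DL x)) x := by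
  have hD := DD_pos hσ x
  have h1 := (hasF_rho hx).rpow_const (p := bb d) (Or.inl hx.ne')
  have h2 := (hasF_DD σ x).rpow_const (p := -(bb d)) (Or.inl hD.ne')
  have h3 := (h1.mul h2).const_mul (bb d)
  refine h3.congr_fderiv ?_
  ext v
  have e1 : rho x ^ (bb d - 1) = rho x ^ bb d * (rho x)⁻¹ := by
    rw [← Real.rpow_neg_one, ← Real.rpow_add hx]
    congr 1
  have e2 : DD σ x ^ (-(bb d) - 1) = DD σ x ^ (-(bb d)) * (DD σ x)⁻¹ := by
    rw [← Real.rpow_neg_one, ← Real.rpow_add hD]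
    congr 1
  simp only [_root_.add_apply, _root_.smul_apply, _root_.sub_apply, cf_ap, smul_eq_mul]
  rw [e1, e2]
  unfold ww
  generalize rho x ^ bb d = W
  generalize DD σ x ^ (-(bb d)) = Y
  generalize DD σ x = D at hD
  generalize rho x = r at hx
  field_simp
  ring

theorem gsq_ww {d : ℕ} {σ : ℝ} (hσ : 0 < σ) {x : V d} (hx : 0 < rho x) :
    gsq (ww σ) x = (ww σ x * bb d) ^ 2 *
      (rho x ^ 2 * ((rho x ^ 2)⁻¹ - 2 * (DD σ x)⁻¹) ^ 2 +
        16 * cc d ^ 4 * mp x ^ 2 * ‖zp x‖ ^ 2 * ((DD σ x)⁻¹) ^ 2) := by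
  unfold gsq nsq
  rw [(hasF_ww hσ hx).fderiv, Fin.sum_univ_succ, Fin.sum_univ_succ, ← sum_zp]
  have e0 : ∀ v : V d, ((ww σ x * bb d) •
      (((rho x ^ 2)⁻¹ * x 0) • cf 0 + ((rho x ^ 2)⁻¹ * x 1) • cf 1 - (DD σ x)⁻¹ • DL x) :
        V d →L[ℝ] ℝ) v = (ww σ x * bb d) * ((rho x ^ 2)⁻¹ * x 0 * v 0 + (rho x ^ 2)⁻¹ * x 1 * v 1 -
        (DD σ x)⁻¹ * DL x v) := by
    intro v
    simp only [_root_.add_apply, _root_.smul_apply, _root_.sub_apply, cf_ap, smul_eq_mul]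
  simp only [e0, Real.norm_eq_abs, sq_abs]
  have z0 : zp (bv (0 : Fin (d + 2)) : V d) = 0 := by
    ext i
    simp [zp, bv]
  have z1 : zp (bv (Fin.succ (0 : Fin (d + 1))) : V d) = 0 := by
    ext i
    have : i.succ.succ ≠ (1 : Fin (d + 2)) := by
      intro h
      have h2 : ((1 : Fin (d + 2)) : ℕ) = (i : ℕ) + 2 := by
        rw [← h]
        simp
      simp at h2
    simp [zp, bv, this]
  have a0 : (bv (0 : Fin (d + 2)) : V d) 0 = 1 := by simp [bv]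
  have a1 : (bv (0 : Fin (d + 2)) : V d) 1 = 0 := by simp [bv]
  have b0 : (bv (Fin.succ (0 : Fin (d + 1))) : V d) 0 = 0 := by simp [bv]
  have b1 : (bv (Fin.succ (0 : Fin (d + 1))) : V d) 1 = 1 := by
    have : (1 : Fin (d + 2)) = Fin.succ (0 : Fin (d + 1)) := by simp
    simp [bv]
  have c0 : ∀ i : Fin d, (bv i.succ.succ : V d) 0 = 0 := by
    intro i
    simp [bv]
  have c1 : ∀ i : Fin d, (bv i.succ.succ : V d) 1 = 0 := by
    intro i
    have : (1 : Fin (d + 2)) ≠ i.succ.succ := by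
      intro h
      have h2 : ((1 : Fin (d + 2)) : ℕ) = (i : ℕ) + 2 := by
        rw [h]
        simp
      simp at h2
    simp [bv, this]
  have d0 : DL x (bv (0 : Fin (d + 2))) = 2 * x 0 := by
    rw [DL_ap, z0, a0, a1, inner_zero_right]
    ring
  have d1 : DL x (bv (Fin.succ (0 : Fin (d + 1)))) = 2 * x 1 := by
    rw [DL_ap, z1, b0, b1, inner_zero_right]
    ring
  simp only [a0, a1, b0, b1, c0, c1, d0, d1, DL_bz]
  have e5 : ∑ i : Fin d, ((ww σ x * bb d) * ((rho x ^ 2)⁻¹ * x 0 * 0 + (rho x ^ 2)⁻¹ * x 1 * 0 -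
        (DD σ x)⁻¹ * (cc d ^ 2 * (4 * mp x) * zp x i))) ^ 2 =
      (ww σ x * bb d) ^ 2 * (16 * cc d ^ 4 * mp x ^ 2 * (∑ i : Fin d, zp x i ^ 2) *
        ((DD σ x)⁻¹) ^ 2) := by
    rw [Finset.mul_sum, Finset.sum_mul, Finset.mul_sum]
    refine Finset.sum_congr rfl fun i _ => ?_
    ring
  rw [e5]
  have hs := rho_sq' x
  generalize (rho x ^ 2)⁻¹ = R
  rw [hs]
  ring

theorem pf_WTS : T_WTS := by
  intro d _ σ hσ
  have hb2 := bb_le d
  have hb1 := bb_ge d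
  have hc := cc_pos d
  refine ⟨?_, DD_pos hσ, fun x => Real.rpow_pos_of_pos (DD_pos hσ x) _, ?_, kap_et hσ, ?_, ?_, ?_, ?_,
    ?_, ?_, ?_⟩
  · exact (contDiff_DD σ).rpow_const_of_ne fun x => (DD_pos hσ x).ne'
  · intro x
    rw [fd_et hσ, DL_Jm, mul_zero]
  · intro x
    rw [kap_et hσ]
    have hD := DD_pos hσ x
    rw [pneg hD]
    unfold et
    have h1 := rho_le_DD σ x
    have h2 : 0 < DD σ x ^ (-(bb d / 2)) := Real.rpow_pos_of_pos hD _
    have h3 : rho x ^ 2 * (DD σ x)⁻¹ ≤ 1 := by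
      rw [← div_eq_mul_inv, div_le_one hD]
      exact h1
    have e : bb d * (rho x ^ 2 * ((DD σ x)⁻¹ * DD σ x ^ (-(bb d / 2)))) =
        bb d * DD σ x ^ (-(bb d / 2)) * (rho x ^ 2 * (DD σ x)⁻¹) := by ring
    rw [e]
    calc _ ≤ bb d * DD σ x ^ (-(bb d / 2)) * 1 :=
          mul_le_mul_of_nonneg_left h3 (by positivity)
      _ = _ := mul_one _
  · intro x hx
    have hD := DD_pos hσ x
    rw [kap_et hσ, nzs_et hσ, pneg hD]
    unfold et
    have h2 : 0 < DD σ x ^ (-(bb d / 2)) := Real.rpow_pos_of_pos hD _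
    have hz := zn_le hx
    have hm := mp_le_DD σ x
    have hm0 : 0 ≤ rho x ^ 2 := sq_nonneg _
    have hcd : cc d ^ 2 = (2 - bb d) ^ 2 / 4096 := by
      rw [bb_eq]
      unfold cc
      have : (d : ℝ) + 1 ≠ 0 := by positivity
      field_simp
      ring
    have e0 : cc d ^ 4 = cc d ^ 2 * cc d ^ 2 := by ring
    have e1 : rho x ^ 2 * ((bb d / 2) ^ 2 * ((DD σ x)⁻¹ * DD σ x ^ (-(bb d / 2))) ^ 2 *
        (16 * cc d ^ 4 * mp x ^ 2 * ‖zp x‖ ^ 2)) =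
        (bb d * rho x ^ 2 * (DD σ x ^ (-(bb d / 2))) ^ 2 * (DD σ x)⁻¹) *
        (4 * bb d * cc d ^ 2 * ((cc d ^ 2 * mp x ^ 2) * (DD σ x)⁻¹) * ‖zp x‖ ^ 2) := by
      rw [e0]
      ring
    have e2 : (2 - bb d) ^ 2 / 512 * (bb d * (rho x ^ 2 * ((DD σ x)⁻¹ * DD σ x ^ (-(bb d / 2)))) *
        DD σ x ^ (-(bb d / 2))) = (bb d * rho x ^ 2 * (DD σ x ^ (-(bb d / 2))) ^ 2 * (DD σ x)⁻¹) *
        ((2 - bb d) ^ 2 / 512) := by ring
    rw [e1, e2]
    refine mul_le_mul_of_nonneg_left ?_ (by positivity)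
    have h3 : (cc d ^ 2 * mp x ^ 2) * (DD σ x)⁻¹ ≤ 1 := by
      rw [← div_eq_mul_inv, div_le_one hD]
      linarith
    have h4 : 0 ≤ (cc d ^ 2 * mp x ^ 2) * (DD σ x)⁻¹ := by positivity
    have h5 : ((cc d ^ 2 * mp x ^ 2) * (DD σ x)⁻¹) * ‖zp x‖ ^ 2 ≤ 1 := by
      nlinarith [sq_nonneg ‖zp x‖]
    have h6 : 4 * bb d * cc d ^ 2 ≤ (2 - bb d) ^ 2 / 512 := by
      rw [hcd]
      nlinarith [sq_nonneg (2 - bb d)]
    have h7 : 0 ≤ 4 * bb d * cc d ^ 2 := by positivity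
    calc 4 * bb d * cc d ^ 2 * ((cc d ^ 2 * mp x ^ 2) * (DD σ x)⁻¹) * ‖zp x‖ ^ 2 =
          4 * bb d * cc d ^ 2 * (((cc d ^ 2 * mp x ^ 2) * (DD σ x)⁻¹) * ‖zp x‖ ^ 2) := by ring
      _ ≤ 4 * bb d * cc d ^ 2 * 1 := mul_le_mul_of_nonneg_left h5 h7
      _ ≤ _ := by rw [mul_one]; exact h6
  · intro x hx
    have hx' : 0 < rho x := hx
    have hp : x 0 ^ 2 + x 1 ^ 2 ≠ 0 := by
      rw [← rho_sq']
      positivity
    have hr : ContDiffAt ℝ 1 (rho (d := d)) x := by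
      have h : ContDiffAt ℝ 1 (fun y : V d => y 0 ^ 2 + y 1 ^ 2) x :=
        ((((cf 0).contDiff).pow 2).add (((cf 1).contDiff).pow 2)).contDiffAt
      exact h.sqrt hp
    have hD : ContDiffAt ℝ 1 (DD (d := d) σ) x := (contDiff_DD σ).contDiffAt
    have h := (contDiffAt_const (c := bb d)).mul
      ((hr.rpow_const_of_ne (p := bb d) hx'.ne').mul
        (hD.rpow_const_of_ne (p := -(bb d)) (DD_pos hσ x).ne'))
    exact h.contDiffWithinAt
  · intro x hx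
    unfold ww
    have h1 := Real.rpow_pos_of_pos hx (bb d)
    have h2 := Real.rpow_pos_of_pos (DD_pos hσ x) (-(bb d))
    have : 0 < bb d := by linarith
    positivity
  · intro θ x
    have hr : rho (rot θ x) = rho x := Pool.Agent.H14.SN.rho_rot θ x
    have hz : zp (rot θ x) = zp x := by
      ext i
      exact Pool.Agent.H14.SN.rot_c2 θ x i
    have hd : DD σ (rot θ x) = DD σ x := by
      rw [DD_eq, DD_eq, hr]
      unfold mp
      rw [hz]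
    unfold ww
    rw [hr, hd]
  · intro x hx hr
    have hD := DD_pos hσ x
    rw [gsq_ww hσ hr]
    have h1 := rho_le_DD σ x
    have hm := mp_le_DD σ x
    have hz := zn_le hx
    have hcs : 16 * cc d ^ 2 ≤ 4 := by
      unfold cc
      have h3 : (1 : ℝ) / (64 * ((d : ℝ) + 1)) ≤ 1 / 64 := by
        apply one_div_le_one_div_of_le (by norm_num)
        have : (0 : ℝ) ≤ d := Nat.cast_nonneg d
        nlinarith
      have h4 : (0 : ℝ) ≤ (1 : ℝ) / (64 * ((d : ℝ) + 1)) := by positivity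
      nlinarith
    set X := rho x ^ 2 * (DD σ x)⁻¹ with hX
    set Y := cc d ^ 2 * mp x ^ 2 * (DD σ x)⁻¹ with hY
    have hX0 : 0 ≤ X := by positivity
    have hY0 : 0 ≤ Y := by positivity
    have hXY : X + Y ≤ 1 := by
      rw [hX, hY, ← add_mul, ← div_eq_mul_inv, div_le_one hD]
      linarith
    have e : rho x ^ 2 * ((ww σ x * bb d) ^ 2 * (rho x ^ 2 * ((rho x ^ 2)⁻¹ - 2 * (DD σ x)⁻¹) ^ 2 +
        16 * cc d ^ 4 * mp x ^ 2 * ‖zp x‖ ^ 2 * ((DD σ x)⁻¹) ^ 2)) =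
        ww σ x ^ 2 * bb d ^ 2 * ((1 - 2 * X) ^ 2 + (16 * cc d ^ 2 * ‖zp x‖ ^ 2) * (X * Y)) := by
      have e3 : rho x ^ 2 * (rho x ^ 2)⁻¹ = 1 := mul_inv_cancel₀ (by positivity)
      have e4 : rho x ^ 2 * (rho x ^ 2 * ((rho x ^ 2)⁻¹ - 2 * (DD σ x)⁻¹) ^ 2) =
          (1 - 2 * X) ^ 2 := by
        rw [hX]
        have : rho x ^ 2 * (rho x ^ 2 * ((rho x ^ 2)⁻¹ - 2 * (DD σ x)⁻¹) ^ 2) =
            (rho x ^ 2 * (rho x ^ 2)⁻¹ - 2 * (rho x ^ 2 * (DD σ x)⁻¹)) ^ 2 := by ring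
        rw [this, e3]
      have e5 : rho x ^ 2 * ((ww σ x * bb d) ^ 2 *
          (rho x ^ 2 * ((rho x ^ 2)⁻¹ - 2 * (DD σ x)⁻¹) ^ 2 +
          16 * cc d ^ 4 * mp x ^ 2 * ‖zp x‖ ^ 2 * ((DD σ x)⁻¹) ^ 2)) =
          ww σ x ^ 2 * bb d ^ 2 *
          (rho x ^ 2 * (rho x ^ 2 * ((rho x ^ 2)⁻¹ - 2 * (DD σ x)⁻¹) ^ 2) +
          (16 * cc d ^ 2 * ‖zp x‖ ^ 2) * ((rho x ^ 2 * (DD σ x)⁻¹) *
            (cc d ^ 2 * mp x ^ 2 * (DD σ x)⁻¹))) := by ring
      rw [e5, e4]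
    rw [e]
    have k1 : (16 * cc d ^ 2 * ‖zp x‖ ^ 2) * (X * Y) ≤ 4 * (X * (1 - X)) := by
      have hY1 : Y ≤ 1 - X := by linarith
      have k2 : X * Y ≤ X * (1 - X) := mul_le_mul_of_nonneg_left hY1 hX0
      have k3 : 16 * cc d ^ 2 * ‖zp x‖ ^ 2 ≤ 4 := by
        have : 0 ≤ 16 * cc d ^ 2 := by positivity
        nlinarith [sq_nonneg ‖zp x‖]
      have k4 : 0 ≤ X * Y := mul_nonneg hX0 hY0
      calc _ ≤ 4 * (X * Y) := mul_le_mul_of_nonneg_right k3 k4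
        _ ≤ _ := by linarith
    have k : (1 - 2 * X) ^ 2 + (16 * cc d ^ 2 * ‖zp x‖ ^ 2) * (X * Y) ≤ 1 := by
      nlinarith
    have hw : 0 ≤ ww σ x ^ 2 * bb d ^ 2 := by positivity
    calc ww σ x ^ 2 * bb d ^ 2 * _ ≤ ww σ x ^ 2 * bb d ^ 2 * 1 := mul_le_mul_of_nonneg_left k hw
      _ ≤ 2 * bb d * ww σ x ^ 2 := by
        nlinarith [mul_nonneg (mul_nonneg (sq_nonneg (ww σ x)) (by linarith : (0 : ℝ) ≤ bb d))
          (by linarith : (0 : ℝ) ≤ 2 - bb d)]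
  · intro x hx
    have hD := DD_pos hσ x
    rw [kap_et hσ]
    unfold ww
    refine mul_le_mul_of_nonneg_left ?_ (by linarith)
    have e1 : rho x ^ 2 = rho x ^ bb d * rho x ^ (2 - bb d) := by
      rw [← Real.rpow_add hx, ← Real.rpow_natCast]
      congr 1
      push_cast
      ring
    have e2 : DD σ x ^ (-(bb d / 2 + 1)) = DD σ x ^ (-(bb d)) * DD σ x ^ (-((2 - bb d) / 2)) := by
      rw [← Real.rpow_add hD]
      congr 1
      ring
    have e3 : rho x ^ (2 - bb d) ≤ DD σ x ^ ((2 - bb d) / 2) := by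
      have h := Real.rpow_le_rpow (by positivity) (rho_le_DD σ x)
        (by linarith : (0 : ℝ) ≤ (2 - bb d) / 2)
      refine le_trans (le_of_eq ?_) h
      rw [← Real.rpow_natCast, ← Real.rpow_mul hx.le]
      congr 1
      push_cast
      ring
    rw [e1, e2, Real.rpow_neg hD.le ((2 - bb d) / 2)]
    have p1 : 0 < rho x ^ bb d := Real.rpow_pos_of_pos hx _
    have p2 : 0 < DD σ x ^ (-(bb d)) := Real.rpow_pos_of_pos hD _
    have p3 : 0 < DD σ x ^ ((2 - bb d) / 2) := Real.rpow_pos_of_pos hD _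
    have e5 : rho x ^ (2 - bb d) * (DD σ x ^ ((2 - bb d) / 2))⁻¹ ≤ 1 := by
      rw [← div_eq_mul_inv, div_le_one p3]
      exact e3
    calc rho x ^ bb d * rho x ^ (2 - bb d) *
          (DD σ x ^ (-(bb d)) * (DD σ x ^ ((2 - bb d) / 2))⁻¹) =
          rho x ^ bb d * DD σ x ^ (-(bb d)) *
          (rho x ^ (2 - bb d) * (DD σ x ^ ((2 - bb d) / 2))⁻¹) := by ring
      _ ≤ rho x ^ bb d * DD σ x ^ (-(bb d)) * 1 :=
          mul_le_mul_of_nonneg_left e5 (by positivity)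
      _ = _ := mul_one _

end

end Pool.Agent.H80.AN
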